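import Pool.Agent.helper58.FI3.SpecF3

set_option autoImplicit false

namespace Pool.Agent.FI3

open Pool.Agent.helper58.DC Pool.Agent.DI Pool.Agent.GR Pool.Agent.OB Pool.Agent.DR Pool.Agent.FI

theorem F123_nz (hFEQ : FEQ_stmt) {G : Type} [Group G] [Finite G] (M : Ideal (integralClosure ℤ ℂ))
    (P : Subgroup G) : nz P ≤ nz (cz P) := by
  intro g hg
  have h1 := (hFEQ G M g 1 P P P (fun _ => 0) (fun _ => 0) (fun _ => 0)).2.1
  have h2 := (hFEQ G M g 1 (cz P) P P (fun _ => 0) (fun _ => 0) (fun _ => 0)).2.1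
  rw [← h2.2.2.2.1, ← h1.1, (h1.2.2.2.1).2 hg]

theorem F123_cjS (hFEQ : FEQ_stmt) {G : Type} [Group G] [Finite G] (M : Ideal (integralClosure ℤ ℂ))
    (K : Subgroup G) (g : G) (hg : g ∈ nz K) : cjS g K = K :=
  ((hFEQ G M g 1 K K K (fun _ => 0) (fun _ => 0) (fun _ => 0)).2.1.2.2.2.1).2 hg

/-- an element of `L` does not change the central characters of `L` -/
theorem F123_SB {G : Type} [Group G] {M : Ideal (integralClosure ℤ ℂ)} {L : Subgroup G}
    {ψ θ : G → ℂ} {n : G} (hn : n ∈ L) (h : SB M L ψ θ) : SB M L (cjF n ψ) θ := by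
  intro z hz hi
  have h2 : (fun x => z (n * x * n⁻¹)) = z := by
    funext x
    exact hz.1 n hn x
  have h3 : cc (cjF n ψ) z = cc ψ z := by
    rw [cjF, cc_funMap, h2]
  rw [h3]
  exact h z hz hi

theorem F123 (hIF : IF_stmt) (hFCN : FCN_stmt) (hFCL : FCL_stmt) (hFOV3 : FOV3_stmt)
    (hCFA : CFA_stmt) (hFEQ : FEQ_stmt) : F123_stmt := by
  classical
  intro p M hS G _ _ P N L Z θ hP hPN hcN hNn hNL hZP hZL hcy
  have hp : p.Prime := hS.pr
  have hfact : Fact p.Prime := ⟨hp⟩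
  have hNK : N ≤ nz (cz P) := hNn.trans (F123_nz hFEQ M P)
  have hBst : ∀ n ∈ N, ∀ ψ ∈ BZ M L θ Z (cz P), cjF n ψ ∈ BZ M L θ Z (cz P) := by
    rintro n hn ψ ⟨h1, h2, h5⟩
    have h3 := (hFEQ G M n 1 P P (cz P) (fun _ => 0) ψ ψ).2.2.2
    refine ⟨?_, F123_SB (hNL hn) h2, ?_⟩
    · have h4 := h3.1.1 h1
      rwa [F123_cjS hFEQ M (cz P) n (hNK hn)] at h4
    · intro z hz x
      rw [cjF_apply, cjF_apply]
      have h6 : n⁻¹ * (z * x) * n = z * (n⁻¹ * x * n) := by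
        have h7 := hZL z hz n⁻¹ (L.inv_mem (hNL hn))
        calc n⁻¹ * (z * x) * n = (n⁻¹ * z) * x * n := by group
          _ = z * (n⁻¹ * x * n) := by rw [h7]; group
      rw [h6]
      exact h5 z hz _
  have hset : BZ M L θ Z N = {φ : G → ℂ | φ ∈ IrrOn N ∧ ∃ ψ ∈ BZ M L θ Z (cz P), ∃ e : ℕ, 0 < e ∧
      OverE (cz P) N φ ψ e} := by
    ext φ
    constructor
    · rintro ⟨h1, h2, h6⟩
      obtain ⟨ψ, h3, e, h4, h5⟩ := (hCFA G (cz P) N hcN hNK).1 φ h1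
      obtain ⟨h7, h8⟩ := hFOV3 p M hS G P N L hP hPN hcN hNn hNL φ h1 ψ h3 e h4 h5
      refine ⟨h1, ψ, ⟨h3, h7.symm.trans h2, ?_⟩, e, h4, h5⟩
      intro z hz
      exact (h8 z (hZP hz) (fun n hn => hZL z hz n (hNL hn))).1 (h6 z hz)
    · rintro ⟨h1, ψ, h3, e, h4, h5⟩
      obtain ⟨h7, h8⟩ := hFOV3 p M hS G P N L hP hPN hcN hNn hNL φ h1 ψ h3.1 e h4 h5
      refine ⟨h1, h7.trans h3.2.1, ?_⟩
      intro z hz
      exact (h8 z (hZP hz) (fun n hn => hZL z hz n (hNL hn))).2 (h3.2.2 z hz)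
  constructor
  · rw [hset]
    exact hFCN G (cz P) N hcN hNK (BZ M L θ Z (cz P)) (fun ψ h => h.1) hBst hcy
  · intro d hd φ hφ
    rw [hset] at hφ
    obtain ⟨h1, ψ, h3, e, h4, h5⟩ := hφ
    obtain ⟨hr, n, hn, hdn⟩ := hd ψ h3
    have h6 := (hFCL G (cz P) N hcN hNK ψ h3.1 (hcy ψ h3)).2 φ h1 e h4 h5
    obtain ⟨m, hm0, hm⟩ := ((hIF G N).2 φ h1).1
    obtain ⟨n', hn0, hn'⟩ := ((hIF G (cz P)).2 ψ h3.1).1
    have hnn : n' = n := by
      rw [hn'] at hn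
      exact_mod_cast hn
    subst hnn
    have hKS : cz P ≤ stF N ψ := by
      intro k hk
      refine ⟨hcN hk, ?_⟩
      funext g
      have h2 := ((hIF G (cz P)).2 ψ h3.1).2.1 k⁻¹ ((cz P).inv_mem hk) g
      simp only [funMap, MulAut.conj_inv_apply]
      simpa using h2
    have hcard : Nat.card (cz P) * (cz P).relIndex (stF N ψ) = Nat.card (stF N ψ) := by
      have h := Subgroup.relIndex_mul_relIndex (⊥ : Subgroup G) (cz P) (stF N ψ) bot_le hKS
      rwa [Subgroup.relIndex_bot_left, Subgroup.relIndex_bot_left] at h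
    have h7 : m * (Nat.card (cz P) * (cz P).relIndex (stF N ψ)) = Nat.card N * n' := by
      rw [hcard]
      rw [hm, hn'] at h6
      exact_mod_cast h6
    refine ⟨m, hm, ?_⟩
    rw [hdn]
    have hK0 : Nat.card (cz P) ≠ 0 := Nat.card_pos.ne'
    have hN0 : Nat.card N ≠ 0 := Nat.card_pos.ne'
    have hr0 : (cz P).relIndex (stF N ψ) ≠ 0 := by
      intro h
      rw [h] at hr
      exact hr (dvd_zero p)
    have h8 := congrArg (padicValNat p) h7
    rw [padicValNat.mul hm0.ne' (mul_ne_zero hK0 hr0), padicValNat.mul hK0 hr0,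
      padicValNat.mul hN0 hn0.ne', padicValNat.eq_zero_of_not_dvd hr] at h8
    omega

end Pool.Agent.FI3
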